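import Pool.Agent.H26.LQ.Defs

/-!
# lq_modules, module ZM2: range of the inverse of the hyperbolic sine
-/

set_option autoImplicit false

open MeasureTheory Set Filter Topology Metric

namespace Pool.Agent.H84.LQ

open Pool.Agent.H26.LQ Pool.Agent.H26.ZQ Pool.Agent.H26.MQ Pool.Agent.H26.ML

theorem zm2_mul {w : ℂ} (h1 : sq1 w ^ 2 = w ^ 2 + 1) : (w + sq1 w) * (sq1 w - w) = 1 := by
  linear_combination h1

theorem zm2_sinh {w : ℂ} (h1 : sq1 w ^ 2 = w ^ 2 + 1) :
    Complex.sinh (Complex.log (w + sq1 w)) = w := by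
  have h3 := zm2_mul h1
  have hq : w + sq1 w ≠ 0 := left_ne_zero_of_mul_eq_one h3
  have hinv : (w + sq1 w)⁻¹ = sq1 w - w := inv_eq_of_mul_eq_one_right h3
  rw [Complex.sinh, Complex.exp_neg, Complex.exp_log hq, hinv]
  ring

theorem zm2_kappa (κ : ℝ) (w : ℂ) (hκ : 0 < κ) :
    (κ : ℂ) * zm κ w = Complex.log (w + sq1 w) := by
  have h : (κ : ℂ) ≠ 0 := by exact_mod_cast hκ.ne'
  unfold zm
  field_simp

theorem zm2_re (κ : ℝ) (w : ℂ) : (zm κ w).re = (Complex.log (w + sq1 w)).re / κ := by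
  unfold zm
  rw [Complex.div_ofReal_re]

theorem zm2_im (κ : ℝ) (w : ℂ) : (zm κ w).im = (Complex.log (w + sq1 w)).im / κ := by
  unfold zm
  rw [Complex.div_ofReal_im]

theorem zm2_pos (hSQ : T_SQ1) (κ : ℝ) (w : ℂ) (hκ : 0 < κ) (hw : 0 < w.re) :
    0 < (zm κ w).re ∧ |(zm κ w).im| < Real.pi / (2 * κ) := by
  obtain ⟨s1, s2, s3, s4, s5, s6⟩ := hSQ
  have hq : 0 < (w + sq1 w).re := by
    rw [Complex.add_re]
    linarith [s5 w hw]
  have harg : |(w + sq1 w).arg| < Real.pi / 2 :=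
    Complex.abs_arg_lt_pi_div_two_iff.2 (Or.inl hq)
  have hs := congrArg Complex.re (zm2_sinh (s1 w))
  have hsr : (Complex.sinh (Complex.log (w + sq1 w))).re =
      Real.sinh (Complex.log (w + sq1 w)).re * Real.cos (Complex.log (w + sq1 w)).im := by
    conv_lhs => rw [← Complex.re_add_im (Complex.log (w + sq1 w))]
    rw [Complex.sinh_add, Complex.sinh_mul_I, Complex.cosh_mul_I, ← Complex.ofReal_sinh,
      ← Complex.ofReal_cosh, ← Complex.ofReal_cos, ← Complex.ofReal_sin]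
    simp only [Complex.add_re, Complex.mul_re, Complex.ofReal_re, Complex.ofReal_im,
      Complex.I_re, Complex.I_im, Complex.mul_im]
    ring
  rw [hsr, Complex.log_im] at hs
  have hcos : 0 < Real.cos (w + sq1 w).arg := by
    apply Real.cos_pos_of_mem_Ioo
    rw [abs_lt] at harg
    exact ⟨harg.1, harg.2⟩
  have hsinh : 0 < Real.sinh (Complex.log (w + sq1 w)).re := by
    by_contra hcon
    push Not at hcon
    nlinarith
  rw [zm2_re, zm2_im, Complex.log_im, abs_div, abs_of_pos hκ]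
  refine ⟨div_pos (Real.sinh_pos_iff.1 hsinh) hκ, ?_⟩
  rw [div_lt_div_iff₀ hκ (by positivity)]
  nlinarith

theorem pf_zm2 (hSQ : T_SQ1) (hZM1 : T_ZM1) : T_ZM2 := by
  intro κ w hκ
  obtain ⟨s1, s2, s3, s4, s5, s6⟩ := id hSQ
  have hsin : ∀ v : ℂ, Complex.sinh (κ * zm κ v) = v := by
    intro v
    rw [zm2_kappa κ v hκ]
    exact zm2_sinh (s1 v)
  refine ⟨fun hw => ?_, fun hw => ?_⟩
  · have hc := (hZM1 κ hκ).1 w hw
    have htend : Tendsto (fun n : ℕ => w + ((1 / ((n : ℝ) + 1) : ℝ) : ℂ)) atTop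
        (𝓝[{w | 0 ≤ w.re}] w) := by
      apply tendsto_nhdsWithin_of_tendsto_nhds_of_eventually_within
      · have h1 : Tendsto (fun n : ℕ => ((1 / ((n : ℝ) + 1) : ℝ) : ℂ)) atTop (𝓝 ((0 : ℝ) : ℂ)) :=
          (Complex.continuous_ofReal.tendsto 0).comp tendsto_one_div_add_atTop_nhds_zero_nat
        have h2 := tendsto_const_nhds (x := w) |>.add h1
        rw [Complex.ofReal_zero, add_zero] at h2
        exact h2
      · refine Eventually.of_forall (fun n => ?_)
        show 0 ≤ (w + ((1 / ((n : ℝ) + 1) : ℝ) : ℂ)).re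
        rw [Complex.add_re, Complex.ofReal_re]
        positivity
    have hlim := hc.tendsto.comp htend
    have hp : ∀ n : ℕ, 0 < (zm κ (w + ((1 / ((n : ℝ) + 1) : ℝ) : ℂ))).re ∧
        |(zm κ (w + ((1 / ((n : ℝ) + 1) : ℝ) : ℂ))).im| < Real.pi / (2 * κ) := by
      intro n
      apply zm2_pos hSQ κ _ hκ
      rw [Complex.add_re, Complex.ofReal_re]
      positivity
    refine ⟨?_, ?_, hsin w⟩
    · have h1 := (Complex.continuous_re.tendsto _).comp hlim
      exact ge_of_tendsto' h1 (fun n => (hp n).1.le)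
    · have h1 := ((Complex.continuous_im.tendsto _).comp hlim).abs
      exact le_of_tendsto' h1 (fun n => (hp n).2.le)
  · obtain ⟨h1, h2⟩ := zm2_pos hSQ κ w hκ hw
    refine ⟨h1, h2, fun hd => ?_⟩
    have hA : AnalyticAt ℂ (zm κ) w := (hZM1 κ hκ).2 w (Or.inl hw)
    have hD : HasDerivAt (zm κ) (deriv (zm κ) w) w := hA.differentiableAt.hasDerivAt
    have hD2 : HasDerivAt (fun v => Complex.sinh (κ * zm κ v))
        (Complex.cosh (κ * zm κ w) * (κ * deriv (zm κ) w)) w :=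
      (hD.const_mul (κ : ℂ)).csinh
    have hD3 : HasDerivAt (fun v : ℂ => v) 1 w := hasDerivAt_id w
    have e : (fun v => Complex.sinh (κ * zm κ v)) = fun v : ℂ => v := funext hsin
    rw [e] at hD2
    have h4 := hD2.unique hD3
    rw [hd, mul_zero, mul_zero] at h4
    exact zero_ne_one h4

end Pool.Agent.H84.LQ
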